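import Pool.Agent.V5helper58.GD.A3
import Pool.Agent.TH845.KN.A9

/-!
# Domination up to a constant with harmless common divisors
-/

set_option autoImplicit false

namespace Pool.Agent.V5helper58.GD

open Filter MeasureTheory Topology Set
open Pool.Agent.H261R2.CM Pool.Agent.H887R3.LW

noncomputable section

variable {k : ℕ}

/-- one polynomial dominated up to a constant -/
theorem dom_one_c' (c : ℝ) (hc : 1 ≤ c) (F A : MvPolynomial (Fin k) ℤ) (hF : F ≠ 0)
    (hle : ∀ t, ‖tv A t‖ ≤ c * ‖tv F t‖)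
    (hg : ∀ Q, Irreducible Q → Q ∣ F → Q ∣ A → Good Q) :
    mM F ∈ LL (Real.log c + Real.log (mM F)) := by
  have hc0 : 0 ≤ Real.log c := Real.log_nonneg hc
  by_cases hA : A = 0
  · exact LL_nonrecip F hF (fun Q hQ h => hg Q hQ h (hA ▸ dvd_zero Q)) _ (by linarith)
  obtain ⟨F1, A1, R, hcop, h1, h2⟩ := UniqueFactorizationMonoid.exists_reduced_factors F hF A
  have hR0 : R ≠ 0 := by
    rintro rfl
    rw [zero_mul] at h1
    exact hF h1.symm
  have hF1 : F1 ≠ 0 := by
    rintro rfl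
    rw [mul_zero] at h1
    exact hF h1.symm
  have hA1 : A1 ≠ 0 := by
    rintro rfl
    rw [mul_zero] at h2
    exact hA h2.symm
  have hR : Nice R := fun Q hQ h =>
    hg Q hQ (h1 ▸ h.trans (dvd_mul_right R F1)) (h2 ▸ h.trans (dvd_mul_right R A1))
  have hmF : mM F = mM R * mM F1 := by rw [← h1, mM_mul R F1 hR0 hF1]
  have hae : ∀ᵐ t ∂((volume : Measure (Fin k → ℝ)).restrict (Set.Icc (0 : Fin k → ℝ) 1)),
      ‖tv A1 t‖ ≤ c * ‖tv F1 t‖ := by
    filter_upwards [F_zero_null hR0] with t ht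
    have h3 := hle t
    rw [← h1, ← h2, J.norm_tv_mul, J.norm_tv_mul] at h3
    refine le_of_mul_le_mul_left ?_ (norm_pos_iff.2 ht)
    linarith
  have h7 : mM R ∈ LL (Real.log (mM R)) := LL_nonrecip R hR0 hR _ le_rfl
  have h8 : mM F1 ∈ LL (Real.log c + Real.log (mM F1)) := by
    refine ⟨k + 1, by omega, MvPolynomial.rename Fin.succ F1, xren A1, J.rename_ne_zero hF1,
      xren_ne_zero hA1, relPrime_xren hF1 hcop, ?_, (J.mM_rename F1).symm⟩
    rw [mx_xren, log_mM]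
    unfold mx
    have h5 : (∫ t in Set.Icc (0 : Fin k → ℝ) 1, (Real.log c + Real.log ‖tv F1 t‖)) =
        Real.log c + ∫ t in Set.Icc (0 : Fin k → ℝ) 1, Real.log ‖tv F1 t‖ := by
      rw [integral_add (integrable_const _) (F_integrable hF1), setIntegral_const, J.vol_cube,
        one_smul]
    rw [← h5]
    refine integral_mono_ae (mx_integrable F1 A1 hF1)
      ((integrable_const _).add (F_integrable hF1)) ?_
    filter_upwards [hae, F_zero_null hF1] with t ht ht2
    have h6 : 0 < ‖tv F1 t‖ := norm_pos_iff.2 ht2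
    rw [← Real.log_mul (by linarith) h6.ne']
    refine Real.log_le_log (lt_max_of_lt_left h6) (max_le ?_ ht)
    nlinarith
  have h9 := Pool.Agent.TH845.KN.LL_mul h7 h8
  rw [hmF, Real.log_mul (mM_pos R).ne' (mM_pos F1).ne']
  exact LL_mono (by linarith) h9

theorem dom_aux_c' (c : ℝ) (hc : 1 ≤ c) (N : ℕ) : ∀ (k : ℕ) (F A : MvPolynomial (Fin k) ℤ)
    (G : Fin N → MvPolynomial (Fin k) ℤ), F ≠ 0 →
    (∀ t, ‖tv A t‖ + ∑ j, ‖tv (G j) t‖ ≤ c * ‖tv F t‖) →
    (∀ Q, Irreducible Q → Q ∣ F → Q ∣ A → (∀ j, Q ∣ G j) → Good Q) →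
    mM F ∈ LL (Real.log c + Real.log (mM F)) := by
  induction N with
  | zero =>
    intro k F A G hF hle hg
    refine dom_one_c' c hc F A hF (fun t => ?_) fun Q hQ h1 h2 => hg Q hQ h1 h2 fun j => j.elim0
    have := hle t
    rw [Fin.sum_univ_zero, add_zero] at this
    exact this
  | succ N ih =>
    intro k F A G hF hle hg
    rw [← J.mM_rename F]
    refine ih (k + 1) (MvPolynomial.rename Fin.succ F) (lin A (G 0))
      (fun j => MvPolynomial.rename Fin.succ (G j.succ)) (J.rename_ne_zero hF) (fun t => ?_) ?_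
    · rw [tv_lin, J.tv_rename]
      simp only [J.tv_rename]
      have h1 := hle (fun j => t j.succ)
      rw [Fin.sum_univ_succ] at h1
      have h2 := norm_add_le (tv A (fun j => t j.succ)) (J.zz t 0 * tv (G 0) (fun j => t j.succ))
      rw [norm_mul, J.norm_zz, one_mul] at h2
      linarith
    · intro Q hQ hQF hQA hQG
      obtain ⟨Q0, rfl⟩ := J.exists_rename (J.degreeOf_zero_of_dvd (J.rename_ne_zero hF) hQF 0
        (J.degreeOf_zero_rename F))
      obtain ⟨h1, h2⟩ := dvd_of_rename_dvd_lin hQA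
      have h3 := map_dvd J.retr hQF
      rw [J.retr_rename, J.retr_rename] at h3
      refine good_rename (hg Q0 (irreducible_of_rename hQ) h3 h1 fun j => ?_)
      refine Fin.cases h2 (fun i => ?_) j
      have h4 := map_dvd J.retr (hQG i)
      rwa [J.retr_rename, J.retr_rename] at h4

/-- a polynomial dominating a family of polynomials up to the constant `c` -/
theorem dom_c' (c : ℝ) (hc : 1 ≤ c) {N : ℕ} (F : MvPolynomial (Fin k) ℤ)
    (G : Fin N → MvPolynomial (Fin k) ℤ)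
    (hF : F ≠ 0) (hle : ∀ t, ∑ j, ‖tv (G j) t‖ ≤ c * ‖tv F t‖)
    (hg : ∀ Q, Irreducible Q → Q ∣ F → (∀ j, Q ∣ G j) → Good Q) :
    mM F ∈ LL (Real.log c + Real.log (mM F)) := by
  refine dom_aux_c' c hc N k F 0 G hF (fun t => ?_) fun Q hQ h1 _ h2 => hg Q hQ h1 h2
  rw [tv_zero, norm_zero, zero_add]
  exact hle t

/-- the measures `x` of the polynomials `F` dominating a family `G_j` up to the constant `κ x` -/
def DM' (κ : ℝ → ℝ) : Set ℝ :=
  {x : ℝ | ∃ (k N : ℕ) (F : MvPolynomial (Fin k) ℤ) (G : Fin N → MvPolynomial (Fin k) ℤ), F ≠ 0 ∧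
    (∀ t, ∑ j, ‖tv (G j) t‖ ≤ κ x * ‖tv F t‖) ∧
    (∀ Q, Irreducible Q → Q ∣ F → (∀ j, Q ∣ G j) → Good Q) ∧ x = mM F}

theorem DM'_LL {κ : ℝ → ℝ} (hκ : Monotone κ) (B : ℝ) : ∃ K : ℝ, DM' κ ∩ Set.Iio B ⊆ LL K := by
  refine ⟨Real.log (max (κ B) 1) + Real.log (max B 1), ?_⟩
  rintro x ⟨⟨k, N, F, G, hF, hle, hg, rfl⟩, hx⟩
  have hx' : mM F < B := hx
  have h1 : κ (mM F) ≤ max (κ B) 1 := (hκ hx'.le).trans (le_max_left _ _)
  have h2 := dom_c' (max (κ B) 1) (le_max_right _ _) F G hF (fun t => (hle t).trans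
    (mul_le_mul_of_nonneg_right h1 (norm_nonneg _))) hg
  refine LL_mono ?_ h2
  have h3 : Real.log (mM F) ≤ Real.log (max B 1) :=
    Real.log_le_log (mM_pos F) (hx'.le.trans (le_max_left _ _))
  linarith

theorem NR_eq_DM' : NR = DM' (fun _ => 1) := by
  refine Subset.antisymm ?_ ?_
  · rintro x ⟨k, -, P, hP, h, rfl⟩
    refine ⟨k, 0, P, fun j => j.elim0, hP, fun t => ?_, fun Q hQ h1 _ => h Q hQ h1, rfl⟩
    rw [Fin.sum_univ_zero, one_mul]
    exact norm_nonneg _
  · rintro x ⟨k, N, F, G, hF, hle, hg, rfl⟩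
    exact dom' F G hF (fun t => by simpa using hle t) hg

end

end Pool.Agent.V5helper58.GD
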