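import Pool.Agent.V5helper58.GD.D

/-!
# Common divisors of the maximal minors of the incidence matrix of a periodic graph
-/

set_option autoImplicit false

namespace Pool.Agent.V5helper58.GD

open Filter MeasureTheory Topology Set Matrix
open Pool.Agent.H261R2.CM Pool.Agent.H887R3.LW

noncomputable section

variable {k N m : ℕ}

/-- a polynomial with the absolute values of the difference of two characters -/
theorem chi_diff (u v : Fin k → ℤ) : ∃ α β : Fin k →₀ ℕ, ∀ x,
    ‖chi u x - chi v x‖ = ‖tv (MvPolynomial.monomial α 1 - MvPolynomial.monomial β 1) x‖ := by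
  set D : Fin k → ℤ := fun j => ((u j).natAbs + (v j).natAbs : ℕ) with hD
  refine ⟨Finsupp.equivFunOnFinite.symm fun j => (u j + D j).toNat,
    Finsupp.equivFunOnFinite.symm fun j => (v j + D j).toNat, fun x => ?_⟩
  have h1 : iv (Finsupp.equivFunOnFinite.symm fun j => (u j + D j).toNat) = u + D := by
    funext j
    unfold iv
    rw [Finsupp.coe_equivFunOnFinite_symm, Pi.add_apply]
    have : 0 ≤ u j + D j := by
      simp only [hD]
      push_cast
      have := neg_abs_le (u j)
      have := abs_nonneg (v j)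
      omega
    exact Int.toNat_of_nonneg this
  have h2 : iv (Finsupp.equivFunOnFinite.symm fun j => (v j + D j).toNat) = v + D := by
    funext j
    unfold iv
    rw [Finsupp.coe_equivFunOnFinite_symm, Pi.add_apply]
    have : 0 ≤ v j + D j := by
      simp only [hD]
      push_cast
      have := neg_abs_le (v j)
      have := abs_nonneg (u j)
      omega
    exact Int.toNat_of_nonneg this
  rw [J.tv_eq, map_sub, ← J.tv_eq, ← J.tv_eq, tv_mono, tv_mono, h1, h2, chi_add, chi_add,
    ← sub_mul, norm_mul, norm_chi, mul_one]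

theorem minors_zero {a b : Fin m → Fin (N + 1)} {s t : Fin m → (Fin k →₀ ℕ)}
    (c : Fin (N + 1) → (Fin k → ℤ))
    (h : ∀ f x, chi (c (a f) + iv (s f)) x = chi (c (b f) + iv (t f)) x)
    (σ : Fin (N + 1) → Fin m) : ((inc a b s t).submatrix id σ).det = 0 := by
  refine J.eq_of_tv_eq fun x => ?_
  rw [tv_zero]
  set A : Matrix (Fin (N + 1)) (Fin (N + 1)) ℂ := Matrix.of fun i j => tv (inc a b s t i (σ j)) x
    with hA
  have h1 : tv ((inc a b s t).submatrix id σ).det x = A.det := by
    rw [J.tv_eq, RingHom.map_det]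
    rfl
  have h2 := Matrix.det_updateRow_sum A 0 fun i => chi (c i) x
  have h3 : (∑ i, chi (c i) x • A i) = 0 := by
    funext j
    rw [Finset.sum_apply]
    have h4 := col_sum a b s t c (σ j) x
    rw [h (σ j) x, sub_self] at h4
    exact h4
  rw [h3] at h2
  have h5 : (A.updateRow 0 0).det = 0 :=
    Matrix.det_eq_zero_of_row_eq_zero 0 fun j => by rw [Matrix.updateRow_self]; rfl
  rw [h5, smul_eq_mul] at h2
  have h6 : chi (c 0) x ≠ 0 := by
    intro h7
    have h8 := norm_chi (c 0) x
    rw [h7, norm_zero] at h8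
    exact zero_ne_one h8
  rw [h1]
  exact (mul_eq_zero.1 h2.symm).resolve_left h6

/-- the common divisors of the maximal minors have measure one -/
theorem graph_gcd {a b : Fin m → Fin (N + 1)} {s t : Fin m → (Fin k →₀ ℕ)} (hab : Conn a b)
    (hne : ∃ σ : Fin (N + 1) → Fin m, ((inc a b s t).submatrix id σ).det ≠ 0)
    (g : MvPolynomial (Fin k) ℤ)
    (hg : ∀ σ : Fin (N + 1) → Fin m, g ∣ ((inc a b s t).submatrix id σ).det) : mM g = 1 := by
  obtain ⟨c, hc⟩ := pot s t hab (N + 1)
  by_cases hall : ∀ f x, chi (c (a f) + iv (s f)) x = chi (c (b f) + iv (t f)) x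
  · obtain ⟨σ, hσ⟩ := hne
    exact absurd (minors_zero c hall σ) hσ
  push Not at hall
  obtain ⟨f, x0, hx0⟩ := hall
  obtain ⟨τ, hτ⟩ := tree_minor c (fun i hi => hc i i.isLt hi) f
  set P := ((inc a b s t).submatrix id τ).det with hP
  have hP0 : P ≠ 0 := by
    intro h0
    have h1 := hτ x0
    rw [h0, tv_zero, norm_zero] at h1
    exact hx0 (sub_eq_zero.1 (norm_eq_zero.1 h1.symm))
  obtain ⟨α, β, hαβ⟩ := chi_diff (c (a f) + iv (s f)) (c (b f) + iv (t f))
  have hne' : α ≠ β := by
    rintro rfl
    have h1 := hαβ x0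
    rw [sub_self, tv_zero, norm_zero] at h1
    exact hx0 (sub_eq_zero.1 (norm_eq_zero.1 h1))
  have hm : mM P = 1 := by
    rw [J.mM_congr fun x => (hτ x).trans (hαβ x)]
    exact mM_binom α β hne'
  obtain ⟨h, hh⟩ := hg τ
  rw [← hP] at hh
  have hg0 : g ≠ 0 := by
    rintro rfl
    rw [zero_mul] at hh
    exact hP0 hh
  have hh0 : h ≠ 0 := by
    rintro rfl
    rw [mul_zero] at hh
    exact hP0 hh
  rw [hh, mM_mul g h hg0 hh0] at hm
  have h1 := one_le_mM g hg0
  have h2 := one_le_mM h hh0
  nlinarith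

end

end Pool.Agent.V5helper58.GD
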