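import Pool.Agent.H887R3.LW.MV14

/-!
# Polynomials dominating a family of polynomials have nonreciprocal measures
-/

set_option autoImplicit false

namespace Pool.Agent.V5helper58.GD

open Filter MeasureTheory Topology Set
open Pool.Agent.H261R2.CM Pool.Agent.H887R3.LW

noncomputable section

variable {k : ℕ}

theorem mM_one : mM (1 : MvPolynomial (Fin k) ℤ) = 1 :=
  J.mM_of_norm_const one_pos fun t => by rw [J.tv_one]; simp

theorem mM_isUnit {u : MvPolynomial (Fin k) ℤ} (hu : IsUnit u) : mM u = 1 :=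
  (J.mM_associated (associated_one_iff_isUnit.2 hu)).trans mM_one

theorem mM_pos (F : MvPolynomial (Fin k) ℤ) : 0 < mM F := Real.exp_pos _

/-- a polynomial all of whose irreducible divisors have measure one has measure one -/
theorem mM_eq_one (F : MvPolynomial (Fin k) ℤ) (hF : F ≠ 0)
    (h : ∀ Q, Irreducible Q → Q ∣ F → mM Q = 1) : mM F = 1 := by
  refine UniqueFactorizationMonoid.induction_on_prime
    (P := fun F : MvPolynomial (Fin k) ℤ => F ≠ 0 → (∀ Q, Irreducible Q → Q ∣ F → mM Q = 1) →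
      mM F = 1) F ?_ ?_ ?_ hF h
  · intro h0
    exact absurd rfl h0
  · intro x hx _ _
    exact mM_isUnit hx
  · intro a p ha hp ih _ h1
    rw [mM_mul p a hp.ne_zero ha, h1 p hp.irreducible (dvd_mul_right p a), one_mul]
    exact ih ha fun Q hQ hQa => h1 Q hQ (hQa.trans (dvd_mul_left a p))

theorem one_mem_NR : (1 : ℝ) ∈ NR :=
  ⟨1, le_rfl, 1, one_ne_zero, fun Q hQ h => absurd (isUnit_of_dvd_one h) hQ.not_isUnit, mM_one.symm⟩

/-- the specialisation `X_0 = 1` -/
def retr1 : MvPolynomial (Fin (k + 1)) ℤ →ₐ[ℤ] MvPolynomial (Fin k) ℤ :=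
  MvPolynomial.aeval (Fin.cases 1 MvPolynomial.X)

theorem retr1_rename (A : MvPolynomial (Fin k) ℤ) :
    retr1 (MvPolynomial.rename Fin.succ A) = A := by
  unfold retr1
  rw [MvPolynomial.aeval_rename]
  have : (Fin.cases 1 MvPolynomial.X : Fin (k + 1) → MvPolynomial (Fin k) ℤ) ∘ Fin.succ =
      MvPolynomial.X := by
    funext i
    simp
  rw [this, MvPolynomial.aeval_X_left_apply]

theorem retr_lin (F A : MvPolynomial (Fin k) ℤ) : J.retr (lin F A) = F := by
  unfold lin
  rw [map_add, map_mul, J.retr_rename]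
  have : J.retr (MvPolynomial.X (0 : Fin (k + 1)) : MvPolynomial (Fin (k + 1)) ℤ) = 0 := by
    unfold J.retr
    rw [MvPolynomial.aeval_X]
    rfl
  rw [this, zero_mul, add_zero]

theorem retr1_lin (F A : MvPolynomial (Fin k) ℤ) : retr1 (lin F A) = F + A := by
  unfold lin
  rw [map_add, map_mul, retr1_rename, retr1_rename]
  have : retr1 (MvPolynomial.X (0 : Fin (k + 1)) : MvPolynomial (Fin (k + 1)) ℤ) = 1 := by
    unfold retr1
    rw [MvPolynomial.aeval_X]
    rfl
  rw [this, one_mul]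

theorem dvd_of_rename_dvd_lin {Q F A : MvPolynomial (Fin k) ℤ}
    (h : MvPolynomial.rename Fin.succ Q ∣ lin F A) : Q ∣ F ∧ Q ∣ A := by
  have h1 := map_dvd J.retr h
  have h2 := map_dvd retr1 h
  rw [J.retr_rename, retr_lin] at h1
  rw [retr1_rename, retr1_lin] at h2
  exact ⟨h1, (dvd_add_right h1).1 h2⟩

theorem degreeOf_lin_le (F A : MvPolynomial (Fin k) ℤ) : (lin F A).degreeOf 0 ≤ 1 := by
  unfold lin
  refine (MvPolynomial.degreeOf_add_le _ _ _).trans ?_
  rw [J.degreeOf_zero_rename]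
  refine max_le (Nat.zero_le _) ?_
  refine (MvPolynomial.degreeOf_mul_le _ _ _).trans ?_
  rw [J.degreeOf_zero_rename, MvPolynomial.degreeOf_X, if_pos rfl]

theorem tv_lin (F A : MvPolynomial (Fin k) ℤ) (t : Fin (k + 1) → ℝ) :
    tv (lin F A) t = tv F (fun j => t j.succ) + J.zz t 0 * tv A (fun j => t j.succ) := by
  unfold lin
  rw [J.tv_add, J.tv_mul, J.tv_X, J.tv_rename, J.tv_rename]

theorem irreducible_of_rename {Q : MvPolynomial (Fin k) ℤ}
    (h : Irreducible (MvPolynomial.rename Fin.succ Q : MvPolynomial (Fin (k + 1)) ℤ)) :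
    Irreducible Q := by
  refine ⟨fun hu => h.not_isUnit (hu.map (MvPolynomial.rename Fin.succ)), fun a b hab => ?_⟩
  have h1 : MvPolynomial.rename Fin.succ Q =
      MvPolynomial.rename Fin.succ a * MvPolynomial.rename (R := ℤ) Fin.succ b := by
    rw [hab, map_mul]
  rcases h.isUnit_or_isUnit h1 with h2 | h2
  · left
    have := h2.map J.retr
    rwa [J.retr_rename] at this
  · right
    have := h2.map J.retr
    rwa [J.retr_rename] at this

/-- a coprime pair with `|A| ≤ |F|` on average -/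
theorem coprime_pair (F A : MvPolynomial (Fin k) ℤ) (hF : F ≠ 0) (hA : A ≠ 0)
    (hFA : IsRelPrime F A) (hmx : mx F A = Real.log (mM F)) (hle : mM A ≤ mM F) :
    mM F ∈ NR := by
  unfold NR
  rw [nonrecip_set_eq]
  rcases hle.lt_or_eq with hlt | heq
  · set d : Fin k →₀ ℕ := J.dg F ⊔ J.dg A with hd
    have hFd : J.sle F d := J.sle_iff.2 le_sup_left
    have hAd : J.sle A d := J.sle_iff.2 le_sup_right
    have hF' := J.rv_ne_zero hFd hF
    have hA' := J.rv_ne_zero hAd hA
    refine ⟨k + 1, by omega, lin F A, lin (J.rv d A) (J.rv d F),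
      ⟨lin_ne_zero hF A, lin_ne_zero hA' _, ?_, ?_⟩, ?_⟩
    · refine WfDvdMonoid.isRelPrime_of_no_irreducible_factors
        (fun h => lin_ne_zero hF A h.1) fun h hh hC hD => ?_
      have hCne : lin F A ≠ 0 := lin_ne_zero hF A
      obtain ⟨e, he⟩ := hC
      have hh0 : h ≠ 0 := hh.ne_zero
      have he0 : e ≠ 0 := by
        rintro rfl
        rw [mul_zero] at he
        exact hCne he
      have hdeg := MvPolynomial.degreeOf_mul_eq (n := (0 : Fin (k + 1))) hh0 he0
      rw [← he] at hdeg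
      have hdl := degreeOf_lin_le F A
      by_cases hz : h.degreeOf 0 = 0
      · obtain ⟨h0, rfl⟩ := J.exists_rename hz
        obtain ⟨h1, h2⟩ := dvd_of_rename_dvd_lin (Q := h0) ⟨e, he⟩
        exact hh.not_isUnit ((hFA h1 h2).map (MvPolynomial.rename Fin.succ))
      · have hez : e.degreeOf 0 = 0 := by omega
        obtain ⟨e0, rfl⟩ := J.exists_rename hez
        have h3 : MvPolynomial.rename Fin.succ e0 ∣ lin F A := ⟨h, by rw [he, mul_comm]⟩
        obtain ⟨h1, h2⟩ := dvd_of_rename_dvd_lin h3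
        have hu : IsUnit (MvPolynomial.rename Fin.succ e0 : MvPolynomial (Fin (k + 1)) ℤ) :=
          (hFA h1 h2).map (MvPolynomial.rename Fin.succ)
        have hCD : lin F A ∣ lin (J.rv d A) (J.rv d F) := by
          rw [he]
          exact (hu.mul_right_dvd).2 hD
        obtain ⟨E, hE⟩ := hCD
        have hE0 : E ≠ 0 := by
          rintro rfl
          rw [mul_zero] at hE
          exact lin_ne_zero hA' _ hE
        have hdeg2 := MvPolynomial.degreeOf_mul_eq (n := (0 : Fin (k + 1))) hCne hE0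
        rw [← hE] at hdeg2
        have hdl2 := degreeOf_lin_le (J.rv d A) (J.rv d F)
        have hEz : E.degreeOf 0 = 0 := by omega
        obtain ⟨E0, rfl⟩ := J.exists_rename hEz
        have h4 := congrArg J.retr hE
        rw [map_mul, retr_lin, retr_lin, J.retr_rename] at h4
        have hE00 : E0 ≠ 0 := by
          rintro rfl
          rw [mul_zero] at h4
          exact hA' h4
        have h5 : mM A = mM F * mM E0 := by
          rw [← mM_mul F E0 hF hE00, ← h4]
          exact J.mM_congr fun t => (J.norm_tv_rv hAd t).symm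
        have h6 := one_le_mM E0 hE00
        have h7 := mM_pos F
        nlinarith
    · intro t
      rw [tv_lin, tv_lin, J.tv_rv hAd, J.tv_rv hFd]
      set y : Fin k → ℝ := fun j => t j.succ
      set z := J.zz t 0 with hz
      have hz1 : z * (starRingEnd ℂ) z = 1 := by
        rw [Complex.mul_conj, Complex.normSq_eq_norm_sq, hz, J.norm_zz]
        simp
      have h1 : (∏ i, J.zz y i ^ d i) * (starRingEnd ℂ) (tv A y) +
          z * ((∏ i, J.zz y i ^ d i) * (starRingEnd ℂ) (tv F y)) =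
          (∏ i, J.zz y i ^ d i) * (z * (starRingEnd ℂ) (tv F y + z * tv A y)) := by
        rw [map_add, map_mul]
        linear_combination (-(∏ i, J.zz y i ^ d i) * (starRingEnd ℂ) (tv A y)) * hz1
      rw [h1, norm_mul, norm_mul, RCLike.norm_conj, norm_prod, hz, J.norm_zz]
      simp [J.norm_zz]
    · rw [mM_lin F A hF, hmx, Real.exp_log (mM_pos F)]
  · have h1 := pairK_of_mx F A hF hA hFA hmx (by rw [hmx, heq])
    obtain ⟨-, -, -, h4⟩ := h1
    refine ⟨k + 1, by omega, MvPolynomial.rename Fin.succ F, MvPolynomial.rename Fin.succ A,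
      ⟨J.rename_ne_zero hF, J.rename_ne_zero hA, J.relPrime_rename hF hFA, fun t => ?_⟩,
      (J.mM_rename F).symm⟩
    rw [J.tv_rename, J.tv_rename]
    exact h4 _

theorem log_mM (F : MvPolynomial (Fin k) ℤ) :
    Real.log (mM F) = ∫ t in Set.Icc (0 : Fin k → ℝ) 1, Real.log ‖tv F t‖ := by
  unfold mM
  rw [Real.log_exp]

/-- one dominated polynomial -/
theorem dom_one (F A : MvPolynomial (Fin k) ℤ) (hF : F ≠ 0)
    (hle : ∀ t, ‖tv A t‖ ≤ ‖tv F t‖)
    (hg : ∀ Q, Irreducible Q → Q ∣ F → Q ∣ A → mM Q = 1) : mM F ∈ NR := by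
  by_cases hA : A = 0
  · have : mM F = 1 := mM_eq_one F hF fun Q hQ h => hg Q hQ h (hA ▸ dvd_zero Q)
    rw [this]
    exact one_mem_NR
  obtain ⟨F1, A1, R, hcop, h1, h2⟩ := UniqueFactorizationMonoid.exists_reduced_factors F hF A
  have hR0 : R ≠ 0 := by
    rintro rfl
    rw [zero_mul] at h1
    exact hF h1.symm
  have hF1 : F1 ≠ 0 := by
    rintro rfl
    rw [mul_zero] at h1
    exact hF h1.symm
  have hA1 : A1 ≠ 0 := by
    rintro rfl
    rw [mul_zero] at h2
    exact hA h2.symm
  have hR : mM R = 1 := mM_eq_one R hR0 fun Q hQ h =>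
    hg Q hQ (h1 ▸ h.trans (dvd_mul_right R F1)) (h2 ▸ h.trans (dvd_mul_right R A1))
  have hmF : mM F = mM F1 := by rw [← h1, mM_mul R F1 hR0 hF1, hR, one_mul]
  have hae : ∀ᵐ t ∂((volume : Measure (Fin k → ℝ)).restrict (Set.Icc (0 : Fin k → ℝ) 1)),
      ‖tv A1 t‖ ≤ ‖tv F1 t‖ := by
    filter_upwards [F_zero_null hR0] with t ht
    have h3 := hle t
    rw [← h1, ← h2, J.norm_tv_mul, J.norm_tv_mul] at h3
    exact le_of_mul_le_mul_left h3 (norm_pos_iff.2 ht)
  rw [hmF]
  refine coprime_pair F1 A1 hF1 hA1 hcop ?_ ?_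
  · rw [log_mM]
    unfold mx
    refine integral_congr_ae ?_
    filter_upwards [hae] with t ht
    rw [max_eq_left ht]
  · rw [← Real.log_le_log_iff (mM_pos A1) (mM_pos F1), log_mM, log_mM]
    refine integral_mono_ae (F_integrable hA1) (F_integrable hF1) ?_
    filter_upwards [hae, F_zero_null hA1] with t ht ht2
    exact Real.log_le_log (norm_pos_iff.2 ht2) ht

theorem dom_aux (N : ℕ) : ∀ (k : ℕ) (F A : MvPolynomial (Fin k) ℤ)
    (G : Fin N → MvPolynomial (Fin k) ℤ), F ≠ 0 →
    (∀ t, ‖tv A t‖ + ∑ j, ‖tv (G j) t‖ ≤ ‖tv F t‖) →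
    (∀ Q, Irreducible Q → Q ∣ F → Q ∣ A → (∀ j, Q ∣ G j) → mM Q = 1) → mM F ∈ NR := by
  induction N with
  | zero =>
    intro k F A G hF hle hg
    refine dom_one F A hF (fun t => ?_) fun Q hQ h1 h2 => hg Q hQ h1 h2 fun j => j.elim0
    have := hle t
    rw [Fin.sum_univ_zero, add_zero] at this
    exact this
  | succ N ih =>
    intro k F A G hF hle hg
    rw [← J.mM_rename F]
    refine ih (k + 1) (MvPolynomial.rename Fin.succ F) (lin A (G 0))
      (fun j => MvPolynomial.rename Fin.succ (G j.succ)) (J.rename_ne_zero hF) (fun t => ?_) ?_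
    · rw [tv_lin, J.tv_rename]
      simp only [J.tv_rename]
      have h1 := hle (fun j => t j.succ)
      rw [Fin.sum_univ_succ] at h1
      have h2 := norm_add_le (tv A (fun j => t j.succ)) (J.zz t 0 * tv (G 0) (fun j => t j.succ))
      rw [norm_mul, J.norm_zz, one_mul] at h2
      linarith
    · intro Q hQ hQF hQA hQG
      obtain ⟨Q0, rfl⟩ := J.exists_rename (J.degreeOf_zero_of_dvd (J.rename_ne_zero hF) hQF 0
        (J.degreeOf_zero_rename F))
      obtain ⟨h1, h2⟩ := dvd_of_rename_dvd_lin hQA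
      have h3 := map_dvd J.retr hQF
      rw [J.retr_rename, J.retr_rename] at h3
      rw [J.mM_rename]
      refine hg Q0 (irreducible_of_rename hQ) h3 h1 fun j => ?_
      refine Fin.cases h2 (fun i => ?_) j
      have h4 := map_dvd J.retr (hQG i)
      rwa [J.retr_rename, J.retr_rename] at h4

/-- a polynomial dominating a family of polynomials has nonreciprocal measure if the common divisors
have measure one -/
theorem dom {N : ℕ} (F : MvPolynomial (Fin k) ℤ) (G : Fin N → MvPolynomial (Fin k) ℤ)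
    (hF : F ≠ 0) (hle : ∀ t, ∑ j, ‖tv (G j) t‖ ≤ ‖tv F t‖)
    (hg : ∀ Q, Irreducible Q → Q ∣ F → (∀ j, Q ∣ G j) → mM Q = 1) : mM F ∈ NR := by
  refine dom_aux N k F 0 G hF (fun t => ?_) fun Q hQ h1 _ h2 => hg Q hQ h1 h2
  have : tv (0 : MvPolynomial (Fin k) ℤ) t = 0 := by rw [J.tv_eq, map_zero]
  rw [this, norm_zero, zero_add]
  exact hle t

end

end Pool.Agent.V5helper58.GD
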