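import Pool.Agent.V5helper58.GD.A

/-!
# Polynomials dominating a family up to a constant have bounded companions
-/

set_option autoImplicit false

namespace Pool.Agent.V5helper58.GD

open Filter MeasureTheory Topology Set
open Pool.Agent.H261R2.CM Pool.Agent.H887R3.LW

noncomputable section

variable {k : ℕ}

theorem tv_zero (t : Fin k → ℝ) : tv (0 : MvPolynomial (Fin k) ℤ) t = 0 := by
  rw [J.tv_eq, map_zero]

theorem one_mem_LL {K : ℝ} (hK : 0 ≤ K) : (1 : ℝ) ∈ LL K := by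
  refine ⟨1, le_rfl, 1, 1, one_ne_zero, one_ne_zero, isRelPrime_one_left, ?_, mM_one.symm⟩
  unfold mx
  simp only [J.tv_one, norm_one, max_self, Real.log_one, integral_zero]
  exact hK

theorem mx_integrable (C D : MvPolynomial (Fin k) ℤ) (hC : C ≠ 0) :
    IntegrableOn (fun t : Fin k → ℝ => Real.log (max ‖tv C t‖ ‖tv D t‖)) (Set.Icc 0 1) := by
  have h1 := K4_intk thM thM_cont thM_ge C D hC
  have h2 := h1.const_mul (1 / 2)
  refine h2.congr (Eventually.of_forall fun t => ?_)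
  simp only
  rw [thM_log (norm_nonneg _) (norm_nonneg _)]
  ring

/-- one polynomial dominated up to a constant -/
theorem dom_one_c (c : ℝ) (hc : 1 ≤ c) (F A : MvPolynomial (Fin k) ℤ) (hF : F ≠ 0)
    (hle : ∀ t, ‖tv A t‖ ≤ c * ‖tv F t‖)
    (hg : ∀ Q, Irreducible Q → Q ∣ F → Q ∣ A → mM Q = 1) :
    mM F ∈ LL (Real.log c + Real.log (mM F)) := by
  have hc0 : 0 ≤ Real.log c := Real.log_nonneg hc
  by_cases hA : A = 0
  · have : mM F = 1 := mM_eq_one F hF fun Q hQ h => hg Q hQ h (hA ▸ dvd_zero Q)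
    rw [this]
    exact one_mem_LL (by rw [Real.log_one]; linarith)
  obtain ⟨F1, A1, R, hcop, h1, h2⟩ := UniqueFactorizationMonoid.exists_reduced_factors F hF A
  have hR0 : R ≠ 0 := by
    rintro rfl
    rw [zero_mul] at h1
    exact hF h1.symm
  have hF1 : F1 ≠ 0 := by
    rintro rfl
    rw [mul_zero] at h1
    exact hF h1.symm
  have hA1 : A1 ≠ 0 := by
    rintro rfl
    rw [mul_zero] at h2
    exact hA h2.symm
  have hR : mM R = 1 := mM_eq_one R hR0 fun Q hQ h =>
    hg Q hQ (h1 ▸ h.trans (dvd_mul_right R F1)) (h2 ▸ h.trans (dvd_mul_right R A1))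
  have hmF : mM F = mM F1 := by rw [← h1, mM_mul R F1 hR0 hF1, hR, one_mul]
  have hae : ∀ᵐ t ∂((volume : Measure (Fin k → ℝ)).restrict (Set.Icc (0 : Fin k → ℝ) 1)),
      ‖tv A1 t‖ ≤ c * ‖tv F1 t‖ := by
    filter_upwards [F_zero_null hR0] with t ht
    have h3 := hle t
    rw [← h1, ← h2, J.norm_tv_mul, J.norm_tv_mul] at h3
    refine le_of_mul_le_mul_left ?_ (norm_pos_iff.2 ht)
    linarith
  rw [hmF]
  refine ⟨k + 1, by omega, MvPolynomial.rename Fin.succ F1, xren A1, J.rename_ne_zero hF1,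
    xren_ne_zero hA1, relPrime_xren hF1 hcop, ?_, (J.mM_rename F1).symm⟩
  rw [mx_xren, log_mM]
  unfold mx
  have h5 : (∫ t in Set.Icc (0 : Fin k → ℝ) 1, (Real.log c + Real.log ‖tv F1 t‖)) =
      Real.log c + ∫ t in Set.Icc (0 : Fin k → ℝ) 1, Real.log ‖tv F1 t‖ := by
    rw [integral_add (integrable_const _) (F_integrable hF1), setIntegral_const, J.vol_cube,
      one_smul]
  rw [← h5]
  refine integral_mono_ae (mx_integrable F1 A1 hF1)
    ((integrable_const _).add (F_integrable hF1)) ?_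
  filter_upwards [hae, F_zero_null hF1] with t ht ht2
  have h6 : 0 < ‖tv F1 t‖ := norm_pos_iff.2 ht2
  rw [← Real.log_mul (by linarith) h6.ne']
  refine Real.log_le_log (lt_max_of_lt_left h6) (max_le ?_ ht)
  nlinarith

theorem dom_aux_c (c : ℝ) (hc : 1 ≤ c) (N : ℕ) : ∀ (k : ℕ) (F A : MvPolynomial (Fin k) ℤ)
    (G : Fin N → MvPolynomial (Fin k) ℤ), F ≠ 0 →
    (∀ t, ‖tv A t‖ + ∑ j, ‖tv (G j) t‖ ≤ c * ‖tv F t‖) →
    (∀ Q, Irreducible Q → Q ∣ F → Q ∣ A → (∀ j, Q ∣ G j) → mM Q = 1) →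
    mM F ∈ LL (Real.log c + Real.log (mM F)) := by
  induction N with
  | zero =>
    intro k F A G hF hle hg
    refine dom_one_c c hc F A hF (fun t => ?_) fun Q hQ h1 h2 => hg Q hQ h1 h2 fun j => j.elim0
    have := hle t
    rw [Fin.sum_univ_zero, add_zero] at this
    exact this
  | succ N ih =>
    intro k F A G hF hle hg
    rw [← J.mM_rename F]
    refine ih (k + 1) (MvPolynomial.rename Fin.succ F) (lin A (G 0))
      (fun j => MvPolynomial.rename Fin.succ (G j.succ)) (J.rename_ne_zero hF) (fun t => ?_) ?_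
    · rw [tv_lin, J.tv_rename]
      simp only [J.tv_rename]
      have h1 := hle (fun j => t j.succ)
      rw [Fin.sum_univ_succ] at h1
      have h2 := norm_add_le (tv A (fun j => t j.succ)) (J.zz t 0 * tv (G 0) (fun j => t j.succ))
      rw [norm_mul, J.norm_zz, one_mul] at h2
      linarith
    · intro Q hQ hQF hQA hQG
      obtain ⟨Q0, rfl⟩ := J.exists_rename (J.degreeOf_zero_of_dvd (J.rename_ne_zero hF) hQF 0
        (J.degreeOf_zero_rename F))
      obtain ⟨h1, h2⟩ := dvd_of_rename_dvd_lin hQA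
      have h3 := map_dvd J.retr hQF
      rw [J.retr_rename, J.retr_rename] at h3
      rw [J.mM_rename]
      refine hg Q0 (irreducible_of_rename hQ) h3 h1 fun j => ?_
      refine Fin.cases h2 (fun i => ?_) j
      have h4 := map_dvd J.retr (hQG i)
      rwa [J.retr_rename, J.retr_rename] at h4

/-- a polynomial dominating a family of polynomials up to the constant `c` -/
theorem dom_c (c : ℝ) (hc : 1 ≤ c) {N : ℕ} (F : MvPolynomial (Fin k) ℤ)
    (G : Fin N → MvPolynomial (Fin k) ℤ)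
    (hF : F ≠ 0) (hle : ∀ t, ∑ j, ‖tv (G j) t‖ ≤ c * ‖tv F t‖)
    (hg : ∀ Q, Irreducible Q → Q ∣ F → (∀ j, Q ∣ G j) → mM Q = 1) :
    mM F ∈ LL (Real.log c + Real.log (mM F)) := by
  refine dom_aux_c c hc N k F 0 G hF (fun t => ?_) fun Q hQ h1 _ h2 => hg Q hQ h1 h2
  rw [tv_zero, norm_zero, zero_add]
  exact hle t

/-- the measures `x` of the polynomials `F` dominating a family `G_j` up to the constant `κ x` -/
def DM (κ : ℝ → ℝ) : Set ℝ :=
  {x : ℝ | ∃ (k N : ℕ) (F : MvPolynomial (Fin k) ℤ) (G : Fin N → MvPolynomial (Fin k) ℤ), F ≠ 0 ∧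
    (∀ t, ∑ j, ‖tv (G j) t‖ ≤ κ x * ‖tv F t‖) ∧
    (∀ Q, Irreducible Q → Q ∣ F → (∀ j, Q ∣ G j) → mM Q = 1) ∧ x = mM F}

theorem DM_LL {κ : ℝ → ℝ} (hκ : Monotone κ) (B : ℝ) : ∃ K : ℝ, DM κ ∩ Set.Iio B ⊆ LL K := by
  refine ⟨Real.log (max (κ B) 1) + Real.log (max B 1), ?_⟩
  rintro x ⟨⟨k, N, F, G, hF, hle, hg, rfl⟩, hx⟩
  have hx' : mM F < B := hx
  have h1 : κ (mM F) ≤ max (κ B) 1 := (hκ hx'.le).trans (le_max_left _ _)
  have h2 := dom_c (max (κ B) 1) (le_max_right _ _) F G hF (fun t => (hle t).trans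
    (mul_le_mul_of_nonneg_right h1 (norm_nonneg _))) hg
  refine LL_mono ?_ h2
  have h3 : Real.log (mM F) ≤ Real.log (max B 1) :=
    Real.log_le_log (mM_pos F) (hx'.le.trans (le_max_left _ _))
  linarith

/-- the nonreciprocal measures are exactly the measures of the polynomials dominating a family with
common divisors of measure one -/
theorem NR_eq_DM : NR = DM (fun _ => 1) := by
  refine Subset.antisymm ?_ ?_
  · intro x hx
    unfold NR at hx
    rw [nonrecip_set_eq] at hx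
    obtain ⟨k, -, C, D, ⟨hC, hD, hCD, hn⟩, rfl⟩ := hx
    refine ⟨k, 1, C, fun _ => D, hC, fun t => ?_, fun Q hQ h1 h2 => ?_, rfl⟩
    · rw [Fin.sum_univ_one, one_mul, hn t]
    · exact absurd (hCD h1 (h2 0)) hQ.not_isUnit
  · rintro x ⟨k, N, F, G, hF, hle, hg, rfl⟩
    exact dom F G hF (fun t => by simpa using hle t) hg

end

end Pool.Agent.V5helper58.GD
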