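import Pool.Agent.V5helper58.GD.B

/-!
# Domination with nonreciprocal common divisors
-/

set_option autoImplicit false

namespace Pool.Agent.V5helper58.GD

open Filter MeasureTheory Topology Set
open Pool.Agent.H261R2.CM Pool.Agent.H887R3.LW

noncomputable section

variable {k : ℕ}

/-- constant, of measure one, or nonreciprocal -/
def Good (Q : MvPolynomial (Fin k) ℤ) : Prop :=
  Q.totalDegree = 0 ∨ mM Q = 1 ∨ ¬ Associated (recip Q) Q

/-- all irreducible divisors are good -/
def Nice (P : MvPolynomial (Fin k) ℤ) : Prop := ∀ Q, Irreducible Q → Q ∣ P → Good Q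

theorem Nice.mul {P P' : MvPolynomial (Fin k) ℤ} (h : Nice P) (h' : Nice P') : Nice (P * P') := by
  intro Q hQ hd
  rcases hQ.prime.dvd_or_dvd hd with h1 | h1
  · exact h Q hQ h1
  · exact h' Q hQ h1

theorem dg_rename (P : MvPolynomial (Fin k) ℤ) (t : Fin (k + 1) → ℝ) :
    (∏ i, J.zz t i ^ (J.dg (MvPolynomial.rename Fin.succ P)) i) =
      ∏ i, J.zz (fun j : Fin k => t j.succ) i ^ (J.dg P) i := by
  rw [Fin.prod_univ_succ]
  have h0 : (J.dg (MvPolynomial.rename Fin.succ P)) 0 = 0 := by
    change (MvPolynomial.rename Fin.succ P).degreeOf 0 = 0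
    exact J.degreeOf_zero_rename P
  rw [h0, pow_zero, one_mul]
  refine Finset.prod_congr rfl fun i _ => ?_
  have h1 : (J.dg (MvPolynomial.rename Fin.succ P)) i.succ = (J.dg P) i := by
    change (MvPolynomial.rename Fin.succ P).degreeOf i.succ = P.degreeOf i
    exact MvPolynomial.degreeOf_rename_of_injective (Fin.succ_injective k) i
  rw [h1]
  rfl

theorem recip_rename (P : MvPolynomial (Fin k) ℤ) :
    recip (MvPolynomial.rename Fin.succ P) = MvPolynomial.rename Fin.succ (recip P) := by
  refine J.eq_of_tv_eq fun t => ?_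
  rw [J.tv_rename, J.recip_eq_rv, J.recip_eq_rv, J.tv_rv (J.sle_dg _), J.tv_rv (J.sle_dg _),
    dg_rename, J.tv_rename]

theorem good_rename {Q : MvPolynomial (Fin k) ℤ} (h : Good Q) :
    Good (MvPolynomial.rename Fin.succ Q) := by
  rcases h with h | h | h
  · left
    have := MvPolynomial.totalDegree_rename_le Fin.succ Q
    omega
  · right
    left
    rw [J.mM_rename, h]
  · right
    right
    intro h1
    apply h
    rw [recip_rename] at h1
    have h2 := h1.map J.retr
    rwa [J.retr_rename, J.retr_rename] at h2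

theorem nice_rename {R : MvPolynomial (Fin k) ℤ} (hR : R ≠ 0) (h : Nice R) :
    Nice (MvPolynomial.rename Fin.succ R) := by
  intro Q hQ hd
  obtain ⟨Q0, rfl⟩ := J.exists_rename (J.degreeOf_zero_of_dvd (J.rename_ne_zero hR) hd 0
    (J.degreeOf_zero_rename R))
  have h3 := map_dvd J.retr hd
  rw [J.retr_rename, J.retr_rename] at h3
  exact good_rename (h Q0 (irreducible_of_rename hQ) h3)

theorem nice_of_pair {C D : MvPolynomial (Fin k) ℤ} (h : PairK C D) : Nice C := by
  obtain ⟨h1, h2⟩ := (pair_iff C).1 ⟨D, h⟩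
  exact fun Q hQ hQC => Or.inr (Or.inr (not_associated_of_isRelPrime C h1 h2 Q hQ hQC))

/-- a coprime pair with `|A| ≤ |F|` on average -/
theorem coprime_pair' (F A : MvPolynomial (Fin k) ℤ) (hF : F ≠ 0) (hA : A ≠ 0)
    (hFA : IsRelPrime F A) (hmx : mx F A = Real.log (mM F)) (hle : mM A ≤ mM F) :
    ∃ C : MvPolynomial (Fin (k + 1)) ℤ, C ≠ 0 ∧ Nice C ∧ mM C = mM F := by
  rcases hle.lt_or_eq with hlt | heq
  · set d : Fin k →₀ ℕ := J.dg F ⊔ J.dg A with hd
    have hFd : J.sle F d := J.sle_iff.2 le_sup_left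
    have hAd : J.sle A d := J.sle_iff.2 le_sup_right
    have hF' := J.rv_ne_zero hFd hF
    have hA' := J.rv_ne_zero hAd hA
    have hpair : PairK (lin F A) (lin (J.rv d A) (J.rv d F)) := by
      refine ⟨lin_ne_zero hF A, lin_ne_zero hA' _, ?_, ?_⟩
      · refine WfDvdMonoid.isRelPrime_of_no_irreducible_factors
          (fun h => lin_ne_zero hF A h.1) fun h hh hC hD => ?_
        have hCne : lin F A ≠ 0 := lin_ne_zero hF A
        obtain ⟨e, he⟩ := hC
        have hh0 : h ≠ 0 := hh.ne_zero
        have he0 : e ≠ 0 := by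
          rintro rfl
          rw [mul_zero] at he
          exact hCne he
        have hdeg := MvPolynomial.degreeOf_mul_eq (n := (0 : Fin (k + 1))) hh0 he0
        rw [← he] at hdeg
        have hdl := degreeOf_lin_le F A
        by_cases hz : h.degreeOf 0 = 0
        · obtain ⟨h0, rfl⟩ := J.exists_rename hz
          obtain ⟨h1, h2⟩ := dvd_of_rename_dvd_lin (Q := h0) ⟨e, he⟩
          exact hh.not_isUnit ((hFA h1 h2).map (MvPolynomial.rename Fin.succ))
        · have hez : e.degreeOf 0 = 0 := by omega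
          obtain ⟨e0, rfl⟩ := J.exists_rename hez
          have h3 : MvPolynomial.rename Fin.succ e0 ∣ lin F A := ⟨h, by rw [he, mul_comm]⟩
          obtain ⟨h1, h2⟩ := dvd_of_rename_dvd_lin h3
          have hu : IsUnit (MvPolynomial.rename Fin.succ e0 : MvPolynomial (Fin (k + 1)) ℤ) :=
            (hFA h1 h2).map (MvPolynomial.rename Fin.succ)
          have hCD : lin F A ∣ lin (J.rv d A) (J.rv d F) := by
            rw [he]
            exact (hu.mul_right_dvd).2 hD
          obtain ⟨E, hE⟩ := hCD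
          have hE0 : E ≠ 0 := by
            rintro rfl
            rw [mul_zero] at hE
            exact lin_ne_zero hA' _ hE
          have hdeg2 := MvPolynomial.degreeOf_mul_eq (n := (0 : Fin (k + 1))) hCne hE0
          rw [← hE] at hdeg2
          have hdl2 := degreeOf_lin_le (J.rv d A) (J.rv d F)
          have hEz : E.degreeOf 0 = 0 := by omega
          obtain ⟨E0, rfl⟩ := J.exists_rename hEz
          have h4 := congrArg J.retr hE
          rw [map_mul, retr_lin, retr_lin, J.retr_rename] at h4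
          have hE00 : E0 ≠ 0 := by
            rintro rfl
            rw [mul_zero] at h4
            exact hA' h4
          have h5 : mM A = mM F * mM E0 := by
            rw [← mM_mul F E0 hF hE00, ← h4]
            exact J.mM_congr fun t => (J.norm_tv_rv hAd t).symm
          have h6 := one_le_mM E0 hE00
          have h7 := mM_pos F
          nlinarith
      · intro t
        rw [tv_lin, tv_lin, J.tv_rv hAd, J.tv_rv hFd]
        set y : Fin k → ℝ := fun j => t j.succ
        set z := J.zz t 0 with hz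
        have hz1 : z * (starRingEnd ℂ) z = 1 := by
          rw [Complex.mul_conj, Complex.normSq_eq_norm_sq, hz, J.norm_zz]
          simp
        have h1 : (∏ i, J.zz y i ^ d i) * (starRingEnd ℂ) (tv A y) +
            z * ((∏ i, J.zz y i ^ d i) * (starRingEnd ℂ) (tv F y)) =
            (∏ i, J.zz y i ^ d i) * (z * (starRingEnd ℂ) (tv F y + z * tv A y)) := by
          rw [map_add, map_mul]
          linear_combination (-(∏ i, J.zz y i ^ d i) * (starRingEnd ℂ) (tv A y)) * hz1
        rw [h1, norm_mul, norm_mul, RCLike.norm_conj, norm_prod, hz, J.norm_zz]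
        simp [J.norm_zz]
    exact ⟨lin F A, lin_ne_zero hF A, nice_of_pair hpair, by
      rw [mM_lin F A hF, hmx, Real.exp_log (mM_pos F)]⟩
  · have h1 := pairK_of_mx F A hF hA hFA hmx (by rw [hmx, heq])
    exact ⟨MvPolynomial.rename Fin.succ F, J.rename_ne_zero hF, nice_rename hF (nice_of_pair h1),
      J.mM_rename F⟩

theorem mem_NR_of_nice {P : MvPolynomial (Fin k) ℤ} (hP : P ≠ 0) (h : Nice P) : mM P ∈ NR :=
  ⟨k + 1, by omega, MvPolynomial.rename Fin.succ P, J.rename_ne_zero hP, nice_rename hP h,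
    (J.mM_rename P).symm⟩

/-- one dominated polynomial -/
theorem dom_one' (F A : MvPolynomial (Fin k) ℤ) (hF : F ≠ 0)
    (hle : ∀ t, ‖tv A t‖ ≤ ‖tv F t‖)
    (hg : ∀ Q, Irreducible Q → Q ∣ F → Q ∣ A → Good Q) : mM F ∈ NR := by
  by_cases hA : A = 0
  · exact mem_NR_of_nice hF fun Q hQ h => hg Q hQ h (hA ▸ dvd_zero Q)
  obtain ⟨F1, A1, R, hcop, h1, h2⟩ := UniqueFactorizationMonoid.exists_reduced_factors F hF A
  have hR0 : R ≠ 0 := by
    rintro rfl
    rw [zero_mul] at h1
    exact hF h1.symm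
  have hF1 : F1 ≠ 0 := by
    rintro rfl
    rw [mul_zero] at h1
    exact hF h1.symm
  have hA1 : A1 ≠ 0 := by
    rintro rfl
    rw [mul_zero] at h2
    exact hA h2.symm
  have hR : Nice R := fun Q hQ h =>
    hg Q hQ (h1 ▸ h.trans (dvd_mul_right R F1)) (h2 ▸ h.trans (dvd_mul_right R A1))
  have hae : ∀ᵐ t ∂((volume : Measure (Fin k → ℝ)).restrict (Set.Icc (0 : Fin k → ℝ) 1)),
      ‖tv A1 t‖ ≤ ‖tv F1 t‖ := by
    filter_upwards [F_zero_null hR0] with t ht
    have h3 := hle t
    rw [← h1, ← h2, J.norm_tv_mul, J.norm_tv_mul] at h3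
    exact le_of_mul_le_mul_left h3 (norm_pos_iff.2 ht)
  obtain ⟨C, hC, hCn, hCm⟩ := coprime_pair' F1 A1 hF1 hA1 hcop (by
    rw [log_mM]
    unfold mx
    refine integral_congr_ae ?_
    filter_upwards [hae] with t ht
    rw [max_eq_left ht]) (by
    rw [← Real.log_le_log_iff (mM_pos A1) (mM_pos F1), log_mM, log_mM]
    refine integral_mono_ae (F_integrable hA1) (F_integrable hF1) ?_
    filter_upwards [hae, F_zero_null hA1] with t ht ht2
    exact Real.log_le_log (norm_pos_iff.2 ht2) ht)
  have hmF : mM F = mM (MvPolynomial.rename Fin.succ R * C) := by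
    rw [← h1, mM_mul R F1 hR0 hF1, mM_mul _ _ (J.rename_ne_zero hR0) hC, J.mM_rename, hCm]
  rw [hmF]
  exact mem_NR_of_nice (mul_ne_zero (J.rename_ne_zero hR0) hC) ((nice_rename hR0 hR).mul hCn)

theorem dom_aux' (N : ℕ) : ∀ (k : ℕ) (F A : MvPolynomial (Fin k) ℤ)
    (G : Fin N → MvPolynomial (Fin k) ℤ), F ≠ 0 →
    (∀ t, ‖tv A t‖ + ∑ j, ‖tv (G j) t‖ ≤ ‖tv F t‖) →
    (∀ Q, Irreducible Q → Q ∣ F → Q ∣ A → (∀ j, Q ∣ G j) → Good Q) → mM F ∈ NR := by
  induction N with
  | zero =>
    intro k F A G hF hle hg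
    refine dom_one' F A hF (fun t => ?_) fun Q hQ h1 h2 => hg Q hQ h1 h2 fun j => j.elim0
    have := hle t
    rw [Fin.sum_univ_zero, add_zero] at this
    exact this
  | succ N ih =>
    intro k F A G hF hle hg
    rw [← J.mM_rename F]
    refine ih (k + 1) (MvPolynomial.rename Fin.succ F) (lin A (G 0))
      (fun j => MvPolynomial.rename Fin.succ (G j.succ)) (J.rename_ne_zero hF) (fun t => ?_) ?_
    · rw [tv_lin, J.tv_rename]
      simp only [J.tv_rename]
      have h1 := hle (fun j => t j.succ)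
      rw [Fin.sum_univ_succ] at h1
      have h2 := norm_add_le (tv A (fun j => t j.succ)) (J.zz t 0 * tv (G 0) (fun j => t j.succ))
      rw [norm_mul, J.norm_zz, one_mul] at h2
      linarith
    · intro Q hQ hQF hQA hQG
      obtain ⟨Q0, rfl⟩ := J.exists_rename (J.degreeOf_zero_of_dvd (J.rename_ne_zero hF) hQF 0
        (J.degreeOf_zero_rename F))
      obtain ⟨h1, h2⟩ := dvd_of_rename_dvd_lin hQA
      have h3 := map_dvd J.retr hQF
      rw [J.retr_rename, J.retr_rename] at h3
      refine good_rename (hg Q0 (irreducible_of_rename hQ) h3 h1 fun j => ?_)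
      refine Fin.cases h2 (fun i => ?_) j
      have h4 := map_dvd J.retr (hQG i)
      rwa [J.retr_rename, J.retr_rename] at h4

/-- a polynomial dominating a family of polynomials has nonreciprocal measure if the irreducible
common divisors are good -/
theorem dom' {N : ℕ} (F : MvPolynomial (Fin k) ℤ) (G : Fin N → MvPolynomial (Fin k) ℤ)
    (hF : F ≠ 0) (hle : ∀ t, ∑ j, ‖tv (G j) t‖ ≤ ‖tv F t‖)
    (hg : ∀ Q, Irreducible Q → Q ∣ F → (∀ j, Q ∣ G j) → Good Q) : mM F ∈ NR := by
  refine dom_aux' N k F 0 G hF (fun t => ?_) fun Q hQ h1 _ h2 => hg Q hQ h1 h2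
  rw [tv_zero, norm_zero, zero_add]
  exact hle t

theorem gram_NR' {ι : Type*} [Fintype ι] (m : ι → MvPolynomial (Fin k) ℤ) (h0 : ∃ j, m j ≠ 0)
    (hg : ∀ Q, Irreducible Q → (∀ j, Q ∣ m j) → Good Q) : mM (gramP m) ∈ NR := by
  classical
  let e := Fintype.equivFin ι
  refine dom' (gramP m) (fun i => m (e.symm i) ^ 2) (gramP_ne_zero h0) (fun t => ?_)
    fun Q hQ _ h => hg Q hQ fun j => ?_
  · rw [norm_gramP, ← e.symm.sum_comp]
    refine le_of_eq (Finset.sum_congr rfl fun i _ => ?_)
    rw [J.tv_eq, map_pow, norm_pow]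
    rfl
  · have h1 := h (e j)
    simp only [e.symm_apply_apply] at h1
    exact hQ.prime.dvd_of_dvd_pow h1

end

end Pool.Agent.V5helper58.GD
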