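import Mathlib

/-!
# The Cauchy-Binet formula
-/

set_option autoImplicit false

namespace Pool.Agent.V5helper58.GD

open Matrix

theorem cb_aux {R : Type*} [CommRing R] {n m : ℕ} (P : Matrix (Fin n) (Fin m) R)
    (Q : Matrix (Fin m) (Fin n) R) :
    (P * Q).det = ∑ a : Fin n → Fin m, (P.submatrix id a).det * ∏ i, Q (a i) i := by
  rw [det_apply']
  have h1 : ∀ σ : Equiv.Perm (Fin n), ∏ i, (P * Q) (σ i) i =
      ∑ a : Fin n → Fin m, (∏ i, P (σ i) (a i)) * ∏ i, Q (a i) i := by
    intro σ
    simp only [Matrix.mul_apply]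
    rw [Finset.prod_univ_sum, Fintype.piFinset_univ]
    apply Finset.sum_congr rfl
    intro a _
    rw [Finset.prod_mul_distrib]
  simp only [h1, Finset.mul_sum]
  rw [Finset.sum_comm]
  apply Finset.sum_congr rfl
  intro a _
  rw [det_apply', Finset.sum_mul]
  apply Finset.sum_congr rfl
  intro σ _
  simp only [submatrix_apply, id]
  ring

/-- the strictly monotone maps -/
abbrev SM (n m : ℕ) : Type := {a : Fin n → Fin m // StrictMono a}

noncomputable instance (n m : ℕ) : Fintype (SM n m) := by
  classical exact Subtype.fintype _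

/-- the map `b ∘ σ` -/
def tup {n m : ℕ} (x : SM n m × Equiv.Perm (Fin n)) : Fin n → Fin m := fun i => x.1.1 (x.2 i)

theorem tup_injective {n m : ℕ} : Function.Injective (tup (n := n) (m := m)) := by
  rintro ⟨⟨b, hb⟩, σ⟩ ⟨⟨c, hc⟩, τ⟩ h
  have h0 : b ∘ σ = c ∘ τ := h
  have hr : Set.range b = Set.range c := by
    rw [← σ.surjective.range_comp b, ← τ.surjective.range_comp c, h0]
  have hbc : b = c := (StrictMono.range_inj hb hc).1 hr
  subst hbc
  have : σ = τ := Equiv.ext fun i => hb.injective (congrFun h0 i)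
  rw [this]

theorem mem_range_tup {n m : ℕ} {a : Fin n → Fin m} (ha : Function.Injective a) :
    a ∈ Set.range (tup (n := n) (m := m)) := by
  refine ⟨⟨⟨a ∘ Tuple.sort a, (Tuple.monotone_sort a).strictMono_of_injective
    (ha.comp (Tuple.sort a).injective)⟩, (Tuple.sort a)⁻¹⟩, ?_⟩
  funext i
  simp [tup]

theorem cauchyBinet {R : Type*} [CommRing R] {n m : ℕ} (P : Matrix (Fin n) (Fin m) R)
    (Q : Matrix (Fin m) (Fin n) R) :
    (P * Q).det = ∑ b : SM n m, (P.submatrix id b.1).det * (Q.submatrix b.1 id).det := by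
  rw [cb_aux, ← Fintype.sum_of_injective tup tup_injective
    (fun x => (P.submatrix id (tup x)).det * ∏ i, Q (tup x i) i) _ ?_ (fun _ => rfl),
    Fintype.sum_prod_type]
  · refine Finset.sum_congr rfl fun b _ => ?_
    rw [det_apply' (Q.submatrix b.1 id), Finset.mul_sum]
    refine Finset.sum_congr rfl fun σ _ => ?_
    have h1 : P.submatrix id (tup (b, σ)) = (P.submatrix id b.1).submatrix id σ := rfl
    rw [h1, Matrix.det_permute']
    simp only [tup, submatrix_apply, id]
    ring
  · intro a ha
    have hna : ¬ Function.Injective a := fun h => ha (mem_range_tup h)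
    rw [Function.Injective] at hna
    push Not at hna
    obtain ⟨i, j, hij, hne⟩ := hna
    rw [Matrix.det_zero_of_column_eq hne (fun r => by simp [hij]), zero_mul]

end Pool.Agent.V5helper58.GD
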