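import Pool.Agent.V5helper58.GD.A2
import Pool.Agent.V5helper58.GD.CB

/-!
# Sums of squares and Gram determinants
-/

set_option autoImplicit false

namespace Pool.Agent.V5helper58.GD

open Filter MeasureTheory Topology Set Matrix
open Pool.Agent.H261R2.CM Pool.Agent.H887R3.LW

noncomputable section

variable {k : ℕ}

theorem mM_mono {P F : MvPolynomial (Fin k) ℤ} (hP : P ≠ 0) (hF : F ≠ 0)
    (h : ∀ t, ‖tv P t‖ ≤ ‖tv F t‖) : mM P ≤ mM F := by
  rw [← Real.log_le_log_iff (mM_pos P) (mM_pos F), log_mM, log_mM]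
  refine integral_mono_ae (F_integrable hP) (F_integrable hF) ?_
  filter_upwards [F_zero_null hP] with t ht
  exact Real.log_le_log (norm_pos_iff.2 ht) (h t)

section gram

variable {ι : Type*} [Fintype ι]

/-- a common bound for the degrees -/
def gd (m : ι → MvPolynomial (Fin k) ℤ) : Fin k →₀ ℕ := ∑ j, J.dg (m j)

theorem sle_gd (m : ι → MvPolynomial (Fin k) ℤ) (j : ι) : J.sle (m j) (gd m) :=
  J.sle_iff.2 (Finset.single_le_sum (f := fun j => J.dg (m j)) (fun _ _ => zero_le)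
    (Finset.mem_univ j))

/-- the sum of the squares `m_j m_j^*`, up to a monomial -/
def gramP (m : ι → MvPolynomial (Fin k) ℤ) : MvPolynomial (Fin k) ℤ :=
  ∑ j, m j * J.rv (gd m) (m j)

theorem norm_gramP (m : ι → MvPolynomial (Fin k) ℤ) (t : Fin k → ℝ) :
    ‖tv (gramP m) t‖ = ∑ j, ‖tv (m j) t‖ ^ 2 := by
  have h1 : tv (gramP m) t = (∏ i, J.zz t i ^ (gd m) i) * ((∑ j, ‖tv (m j) t‖ ^ 2 : ℝ) : ℂ) := by
    unfold gramP
    rw [J.tv_eq, map_sum, Complex.ofReal_sum, Finset.mul_sum]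
    refine Finset.sum_congr rfl fun j _ => ?_
    rw [← J.tv_eq, J.tv_mul, J.tv_rv (sle_gd m j)]
    have h2 : tv (m j) t * (starRingEnd ℂ) (tv (m j) t) = ((‖tv (m j) t‖ ^ 2 : ℝ) : ℂ) := by
      rw [Complex.mul_conj, Complex.normSq_eq_norm_sq]
    rw [← h2]
    ring
  rw [h1, norm_mul, norm_prod, Complex.norm_real, Real.norm_of_nonneg
    (Finset.sum_nonneg fun _ _ => by positivity)]
  simp [J.norm_zz]

theorem gramP_ne_zero {m : ι → MvPolynomial (Fin k) ℤ} (h : ∃ j, m j ≠ 0) : gramP m ≠ 0 := by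
  obtain ⟨j, hj⟩ := h
  intro h0
  refine hj (J.eq_of_tv_eq fun t => ?_)
  have h1 := norm_gramP m t
  rw [h0, tv_zero, norm_zero] at h1
  have h2 := (Finset.sum_eq_zero_iff_of_nonneg (fun i _ => by positivity)).1 h1.symm j
    (Finset.mem_univ j)
  rw [tv_zero]
  exact norm_eq_zero.1 (pow_eq_zero_iff (two_ne_zero) |>.1 h2)

theorem gram_NR (m : ι → MvPolynomial (Fin k) ℤ) (h0 : ∃ j, m j ≠ 0)
    (hg : ∀ Q, Irreducible Q → (∀ j, Q ∣ m j) → mM Q = 1) : mM (gramP m) ∈ NR := by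
  classical
  let e := Fintype.equivFin ι
  refine dom (gramP m) (fun i => m (e.symm i) ^ 2) (gramP_ne_zero h0) (fun t => ?_)
    fun Q hQ _ h => hg Q hQ fun j => ?_
  · rw [norm_gramP, ← e.symm.sum_comp]
    refine le_of_eq (Finset.sum_congr rfl fun i _ => ?_)
    rw [J.tv_eq, map_pow, norm_pow]
    rfl
  · have h1 := h (e j)
    rw [e.symm_apply_apply] at h1
    exact hQ.prime.dvd_of_dvd_pow h1

theorem gram_gap (m : ι → MvPolynomial (Fin k) ℤ) (h0 : ∃ j, m j ≠ 0)
    (hg : ∀ Q, Irreducible Q → (∀ j, Q ∣ m j) → mM Q = 1) :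
    mM (gramP m) = 1 ∨ 2 ≤ mM (gramP m) := by
  classical
  obtain ⟨i, hi⟩ := h0
  by_cases h1 : ∃ j, j ≠ i ∧ m j ≠ 0
  · right
    obtain ⟨j, hji, hj⟩ := h1
    have hC : (MvPolynomial.C 2 : MvPolynomial (Fin k) ℤ) ≠ 0 := by
      rw [Ne, MvPolynomial.C_eq_zero]
      norm_num
    have h2 : mM (MvPolynomial.C 2 * (m i * m j)) ≤ mM (gramP m) := by
      refine mM_mono (mul_ne_zero hC (mul_ne_zero hi hj)) (gramP_ne_zero ⟨i, hi⟩) fun t => ?_
      rw [norm_gramP, J.norm_tv_mul, J.norm_tv_mul, J.tv_C]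
      have h3 : ‖tv (m i) t‖ ^ 2 + ‖tv (m j) t‖ ^ 2 ≤ ∑ j, ‖tv (m j) t‖ ^ 2 := by
        rw [← Finset.sum_pair (f := fun j => ‖tv (m j) t‖ ^ 2) hji.symm]
        exact Finset.sum_le_sum_of_subset_of_nonneg (Finset.subset_univ _)
          fun _ _ _ => by positivity
      have h4 : ‖((2 : ℤ) : ℂ)‖ = 2 := by simp
      rw [h4]
      nlinarith [sq_nonneg (‖tv (m i) t‖ - ‖tv (m j) t‖)]
    rw [mM_mul _ _ hC (mul_ne_zero hi hj), mM_mul _ _ hi hj, J.mM_C (by norm_num)] at h2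
    have h5 := one_le_mM (m i) hi
    have h6 := one_le_mM (m j) hj
    have h7 : ((2 : ℤ).natAbs : ℝ) = 2 := by norm_num
    rw [h7] at h2
    nlinarith
  · left
    push Not at h1
    have h2 : mM (m i) = 1 := by
      refine mM_eq_one (m i) hi fun Q hQ hd => hg Q hQ fun j => ?_
      by_cases hj : j = i
      · rw [hj]
        exact hd
      · rw [h1 j hj]
        exact dvd_zero Q
    have h3 : mM (gramP m) = mM (m i * m i) := by
      refine J.mM_congr fun t => ?_
      rw [norm_gramP, J.norm_tv_mul, Finset.sum_eq_single i]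
      · ring
      · intro j _ hj
        rw [h1 j hj, tv_zero, norm_zero]
        ring
      · intro h
        exact absurd (Finset.mem_univ i) h
    rw [h3, mM_mul _ _ hi hi, h2, one_mul]

end gram

/-- the complex matrix of the values at a torus point -/
def mv {n m : ℕ} (B : Matrix (Fin n) (Fin m) (MvPolynomial (Fin k) ℤ)) (t : Fin k → ℝ) :
    Matrix (Fin n) (Fin m) ℂ := B.map fun P => tv P t

/-- the maximal minors -/
def mn {n m : ℕ} (B : Matrix (Fin n) (Fin m) (MvPolynomial (Fin k) ℤ)) (a : SM n m) :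
    MvPolynomial (Fin k) ℤ := (B.submatrix id a.1).det

theorem det_mv {n m : ℕ} (B : Matrix (Fin n) (Fin m) (MvPolynomial (Fin k) ℤ)) (t : Fin k → ℝ) :
    ‖(mv B t * (mv B t)ᴴ).det‖ = ‖tv (gramP (mn B)) t‖ := by
  rw [norm_gramP, cauchyBinet]
  have h1 : ∀ b : SM n m, ((mv B t).submatrix id b.1).det * ((mv B t)ᴴ.submatrix b.1 id).det =
      ((‖tv (mn B b) t‖ ^ 2 : ℝ) : ℂ) := by
    intro b
    have h2 : ((mv B t).submatrix id b.1).det = tv (mn B b) t := by
      unfold mn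
      rw [J.tv_eq, RingHom.map_det]
      rfl
    have h3 : (mv B t)ᴴ.submatrix b.1 id = ((mv B t).submatrix id b.1)ᴴ := rfl
    rw [h3, det_conjTranspose, h2]
    change tv (mn B b) t * (starRingEnd ℂ) (tv (mn B b) t) = _
    rw [Complex.mul_conj, Complex.normSq_eq_norm_sq]
  simp only [h1]
  rw [← Complex.ofReal_sum, Complex.norm_real, Real.norm_of_nonneg
    (Finset.sum_nonneg fun _ _ => by positivity)]

theorem gram_eq {n m : ℕ} (B : Matrix (Fin n) (Fin m) (MvPolynomial (Fin k) ℤ)) :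
    Real.exp (∫ t in Set.Icc (0 : Fin k → ℝ) 1, Real.log ‖(mv B t * (mv B t)ᴴ).det‖) =
      mM (gramP (mn B)) := by
  unfold mM
  simp only [det_mv]

/-- minors for arbitrary column sequences -/
theorem exists_mn {n m : ℕ} (B : Matrix (Fin n) (Fin m) (MvPolynomial (Fin k) ℤ))
    (a : Fin n → Fin m) (ha : (B.submatrix id a).det ≠ 0) :
    ∃ b : SM n m, Associated (mn B b) ((B.submatrix id a).det) := by
  have hinj : Function.Injective a := by
    intro i j hij
    by_contra hne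
    exact ha (Matrix.det_zero_of_column_eq hne fun r => by simp [hij])
  obtain ⟨⟨b, σ⟩, hb⟩ := mem_range_tup hinj
  refine ⟨b, ?_⟩
  have h1 : B.submatrix id a = (B.submatrix id b.1).submatrix id σ := by
    rw [← hb]
    rfl
  rw [h1, Matrix.det_permute']
  unfold mn
  rcases Int.units_eq_one_or (Equiv.Perm.sign σ) with h | h
  · rw [h]
    simp
  · rw [h]
    simp

end

end Pool.Agent.V5helper58.GD
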