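import Pool.Agent.V5helper58.GD.B

/-!
# Binomials
-/

set_option autoImplicit false

namespace Pool.Agent.V5helper58.GD

open Filter MeasureTheory Topology Set Polynomial
open Pool.Agent.H261R2.CM Pool.Agent.H887R3.LW

noncomputable section

theorem mm_binom {n : ℕ} (hn : n ≠ 0) (c : ℂ) (hc : ‖c‖ = 1) :
    (X ^ n - C c : ℂ[X]).mahlerMeasure = 1 := by
  rw [Polynomial.mahlerMeasure_eq_leadingCoeff_mul_prod_roots,
    Polynomial.leadingCoeff_X_pow_sub_C (Nat.pos_of_ne_zero hn), norm_one, one_mul]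
  apply Multiset.prod_eq_one
  intro y hy
  rw [Multiset.mem_map] at hy
  obtain ⟨a, ha, rfl⟩ := hy
  have h1 : a ^ n = c := by
    have h2 := (Polynomial.mem_roots'.1 ha).2
    rw [Polynomial.IsRoot, Polynomial.eval_sub, Polynomial.eval_pow, Polynomial.eval_X,
      Polynomial.eval_C, sub_eq_zero] at h2
    exact h2
  have h3 : ‖a‖ = 1 := (pow_eq_one_iff_of_nonneg (norm_nonneg a) hn).1 (by
    rw [← norm_pow, h1, hc])
  rw [h3, max_self]

theorem mm_pow (a : ℕ) : (X ^ a : ℂ[X]).mahlerMeasure = 1 := by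
  induction a with
  | zero => rw [pow_zero, Polynomial.mahlerMeasure_one]
  | succ a ih =>
    have h1 : (X : ℂ[X]).mahlerMeasure = 1 := by
      have h2 := Polynomial.mahlerMeasure_X_sub_C 0
      rw [C_0, sub_zero, norm_zero] at h2
      rw [h2]
      norm_num
    rw [pow_succ, Polynomial.mahlerMeasure_mul, ih, h1, one_mul]

theorem mm_two (a b : ℕ) (hab : a < b) (u v : ℂ) (hu : ‖u‖ = 1) (hv : ‖v‖ = 1) :
    (C u * X ^ a - C v * X ^ b : ℂ[X]).mahlerMeasure = 1 := by
  have hv0 : v ≠ 0 := fun h => by rw [h, norm_zero] at hv; exact zero_ne_one hv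
  obtain ⟨n, rfl⟩ := Nat.exists_eq_add_of_lt hab
  have h1 : (C u * X ^ a - C v * X ^ (a + n + 1) : ℂ[X]) =
      X ^ a * (C (-v) * (X ^ (n + 1) - C (u / v))) := by
    have h2 : (C u : ℂ[X]) = C v * C (u / v) := by
      rw [← C_mul, mul_div_cancel₀ u hv0]
    rw [h2, C_neg]
    ring
  rw [h1, Polynomial.mahlerMeasure_mul, Polynomial.mahlerMeasure_mul, mm_binom (by omega) _ (by
    rw [norm_div, hu, hv, div_one]), Polynomial.mahlerMeasure_const, norm_neg, hv, mm_pow]
  norm_num

theorem mm_two' (a b : ℕ) (hab : a ≠ b) (u v : ℂ) (hu : ‖u‖ = 1) (hv : ‖v‖ = 1) :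
    (C u * X ^ a - C v * X ^ b : ℂ[X]).mahlerMeasure = 1 := by
  rcases lt_or_gt_of_ne hab with h | h
  · exact mm_two a b h u v hu hv
  · have h1 : (C u * X ^ a - C v * X ^ b : ℂ[X]) = C (-1) * (C v * X ^ b - C u * X ^ a) := by
      rw [C_neg, C_1]
      ring
    rw [h1, Polynomial.mahlerMeasure_mul, Polynomial.mahlerMeasure_const, norm_neg, norm_one,
      one_mul]
    exact mm_two b a h v u hv hu

/-- the difference of two monomials has measure one -/
theorem mM_binom {k : ℕ} (α β : Fin k →₀ ℕ) (h : α ≠ β) :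
    mM (MvPolynomial.monomial α 1 - MvPolynomial.monomial β 1 : MvPolynomial (Fin k) ℤ) = 1 := by
  obtain ⟨i, hi⟩ : ∃ i, α i ≠ β i := by
    by_contra h1
    push Not at h1
    exact h (Finsupp.ext h1)
  obtain _ | k := k
  · exact i.elim0
  set P : MvPolynomial (Fin (k + 1)) ℤ := MvPolynomial.monomial α 1 - MvPolynomial.monomial β 1
    with hP
  have hP0 : P ≠ 0 := by
    intro h0
    have h1 := congrArg (MvPolynomial.coeff α) h0
    rw [hP, MvPolynomial.coeff_sub, MvPolynomial.coeff_monomial, MvPolynomial.coeff_monomial,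
      if_pos rfl, if_neg (Ne.symm h), MvPolynomial.coeff_zero] at h1
    norm_num at h1
  unfold mM
  rw [← (K8.cube_slice i (fun x => Real.log ‖tv P x‖) (F_integrable hP0)).2]
  have h2 : ∀ x : Fin (k + 1) → ℝ,
      (∫ w in Set.Icc (0 : ℝ) 1, Real.log ‖tv P (Function.update x i w)‖) = 0 := by
    intro x
    simp only [← K8.eval_slice]
    rw [← K8.log_mahler]
    have hm : ∀ γ : Fin (k + 1) →₀ ℕ, K8.slice x i (MvPolynomial.monomial γ 1) =
        C (∏ l ∈ Finset.univ.erase i, J.zz x l ^ γ l) * X ^ γ i := by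
      intro γ
      unfold K8.slice
      rw [MvPolynomial.coe_eval₂Hom, MvPolynomial.eval₂_monomial, map_one, one_mul,
        Finsupp.prod_fintype _ _ (fun i => pow_zero _),
        ← Finset.mul_prod_erase _ _ (Finset.mem_univ i), if_pos rfl, mul_comm, map_prod]
      congr 1
      refine Finset.prod_congr rfl fun l hl => ?_
      rw [if_neg (Finset.ne_of_mem_erase hl), ← C_pow]
    rw [hP, map_sub, hm, hm, mm_two' _ _ hi, Real.log_one]
    · rw [norm_prod]
      simp [J.norm_zz]
    · rw [norm_prod]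
      simp [J.norm_zz]
  simp only [h2, integral_zero, Real.exp_zero]

end

end Pool.Agent.V5helper58.GD
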