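import Pool.Agent.V5helper58.GD.C

/-!
# Incidence matrices of periodic graphs
-/

set_option autoImplicit false

namespace Pool.Agent.V5helper58.GD

open Filter MeasureTheory Topology Set Matrix
open Pool.Agent.H261R2.CM Pool.Agent.H887R3.LW

noncomputable section

variable {k N m : ℕ}

/-- the characters of the torus -/
def chi (c : Fin k → ℤ) (x : Fin k → ℝ) : ℂ := ∏ j, J.zz x j ^ c j

theorem zz_ne_zero (x : Fin k → ℝ) (j : Fin k) : J.zz x j ≠ 0 := by
  intro h
  have h1 := J.norm_zz x j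
  rw [h, norm_zero] at h1
  exact zero_ne_one h1

theorem norm_chi (c : Fin k → ℤ) (x : Fin k → ℝ) : ‖chi c x‖ = 1 := by
  unfold chi
  rw [norm_prod]
  simp [J.norm_zz]

theorem chi_add (c d : Fin k → ℤ) (x : Fin k → ℝ) : chi (c + d) x = chi c x * chi d x := by
  unfold chi
  rw [← Finset.prod_mul_distrib]
  refine Finset.prod_congr rfl fun j _ => ?_
  rw [Pi.add_apply, zpow_add₀ (zz_ne_zero x j)]

/-- the integer vector of an exponent -/
def iv (s : Fin k →₀ ℕ) : Fin k → ℤ := fun j => (s j : ℤ)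

theorem tv_mono (s : Fin k →₀ ℕ) (x : Fin k → ℝ) :
    tv (MvPolynomial.monomial s 1 : MvPolynomial (Fin k) ℤ) x = chi (iv s) x := by
  rw [J.tv_monomial, Int.cast_one, one_mul]
  unfold chi iv
  simp only [zpow_natCast]

/-- the incidence matrix of the periodic graph with the vertices `Fin (N + 1)` and the edges `e`
from `x^(s e) (a e)` to `x^(t e) (b e)` -/
def inc (a b : Fin m → Fin (N + 1)) (s t : Fin m → (Fin k →₀ ℕ)) :
    Matrix (Fin (N + 1)) (Fin m) (MvPolynomial (Fin k) ℤ) :=
  Matrix.of fun i e => (if i = a e then MvPolynomial.monomial (s e) 1 else 0) -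
    (if i = b e then MvPolynomial.monomial (t e) 1 else 0)

theorem tv_inc (a b : Fin m → Fin (N + 1)) (s t : Fin m → (Fin k →₀ ℕ)) (i : Fin (N + 1))
    (e : Fin m) (x : Fin k → ℝ) :
    tv (inc a b s t i e) x = (if i = a e then chi (iv (s e)) x else 0) -
      (if i = b e then chi (iv (t e)) x else 0) := by
  unfold inc
  rw [Matrix.of_apply, J.tv_eq, map_sub]
  congr 1
  · split_ifs
    · rw [← J.tv_eq, tv_mono]
    · exact map_zero _
  · split_ifs
    · rw [← J.tv_eq, tv_mono]
    · exact map_zero _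

/-- each vertex but the first is joined to a smaller one -/
def Conn (a b : Fin m → Fin (N + 1)) : Prop :=
  ∀ i : Fin (N + 1), i ≠ 0 → ∃ e, (a e = i ∧ b e < i) ∨ (b e = i ∧ a e < i)

theorem pot {a b : Fin m → Fin (N + 1)} (s t : Fin m → (Fin k →₀ ℕ)) (h : Conn a b) (M : ℕ) :
    ∃ c : Fin (N + 1) → (Fin k → ℤ), ∀ i : Fin (N + 1), i.val < M → i ≠ 0 → ∃ e,
      (a e = i ∧ b e < i ∧ c i + iv (s e) = c (b e) + iv (t e)) ∨
      (b e = i ∧ a e < i ∧ c (a e) + iv (s e) = c i + iv (t e)) := by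
  classical
  induction M with
  | zero => exact ⟨fun _ => 0, fun i hi => absurd hi (Nat.not_lt_zero _)⟩
  | succ M ih =>
    obtain ⟨c, hc⟩ := ih
    by_cases hM : M < N + 1
    swap
    · exact ⟨c, fun i _ h0 => hc i (by omega) h0⟩
    set i0 : Fin (N + 1) := ⟨M, hM⟩ with hi0
    by_cases h0 : i0 = 0
    · refine ⟨c, fun i hi hne => hc i ?_ hne⟩
      rcases Nat.lt_succ_iff_lt_or_eq.1 hi with h1 | h1
      · exact h1
      · exact absurd (Fin.ext h1 : i = i0) (fun h2 => hne (h2.trans h0))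
    obtain ⟨e, he⟩ := h i0 h0
    set v : Fin k → ℤ := if a e = i0 ∧ b e < i0 then c (b e) + iv (t e) - iv (s e) else
      c (a e) + iv (s e) - iv (t e) with hv
    refine ⟨Function.update c i0 v, fun i hi hne => ?_⟩
    rcases Nat.lt_succ_iff_lt_or_eq.1 hi with h1 | h1
    · obtain ⟨e', he'⟩ := hc i h1 hne
      have hii : i < i0 := h1
      refine ⟨e', ?_⟩
      rcases he' with ⟨h2, h3, h4⟩ | ⟨h2, h3, h4⟩
      · left
        refine ⟨h2, h3, ?_⟩
        rw [Function.update_of_ne hii.ne, Function.update_of_ne (h3.trans hii).ne]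
        exact h4
      · right
        refine ⟨h2, h3, ?_⟩
        rw [Function.update_of_ne hii.ne, Function.update_of_ne (h3.trans hii).ne]
        exact h4
    · have hii : i = i0 := Fin.ext h1
      rw [hii]
      refine ⟨e, ?_⟩
      by_cases hcase : a e = i0 ∧ b e < i0
      · left
        refine ⟨hcase.1, hcase.2, ?_⟩
        rw [Function.update_self, Function.update_of_ne hcase.2.ne, hv, if_pos hcase]
        abel
      · right
        have he2 := he.resolve_left hcase
        refine ⟨he2.1, he2.2, ?_⟩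
        rw [Function.update_self, Function.update_of_ne he2.2.ne, hv, if_neg hcase]
        abel

/-- the weighted sum of the entries of a column -/
theorem col_sum (a b : Fin m → Fin (N + 1)) (s t : Fin m → (Fin k →₀ ℕ))
    (c : Fin (N + 1) → (Fin k → ℤ)) (e : Fin m) (x : Fin k → ℝ) :
    ∑ i, chi (c i) x * tv (inc a b s t i e) x =
      chi (c (a e) + iv (s e)) x - chi (c (b e) + iv (t e)) x := by
  simp only [tv_inc, mul_sub, mul_ite, mul_zero, Finset.sum_sub_distrib, Finset.sum_ite_eq',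
    Finset.mem_univ, if_true, chi_add]

/-- the minors of a spanning tree and a further edge -/
theorem tree_minor {a b : Fin m → Fin (N + 1)} {s t : Fin m → (Fin k →₀ ℕ)}
    (c : Fin (N + 1) → (Fin k → ℤ))
    (hc : ∀ i : Fin (N + 1), i ≠ 0 → ∃ e,
      (a e = i ∧ b e < i ∧ c i + iv (s e) = c (b e) + iv (t e)) ∨
      (b e = i ∧ a e < i ∧ c (a e) + iv (s e) = c i + iv (t e))) (f : Fin m) :
    ∃ τ : Fin (N + 1) → Fin m, ∀ x, ‖tv ((inc a b s t).submatrix id τ).det x‖ =
      ‖chi (c (a f) + iv (s f)) x - chi (c (b f) + iv (t f)) x‖ := by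
  have : Nonempty (Fin m) := ⟨f⟩
  choose! E hE using hc
  refine ⟨Fin.cons f fun i => E i.succ, fun x => ?_⟩
  set τ : Fin (N + 1) → Fin m := Fin.cons f fun i => E i.succ with hτ
  have hτ0 : τ 0 = f := rfl
  have hτs : ∀ j : Fin N, τ j.succ = E j.succ := fun j => rfl
  set A : Matrix (Fin (N + 1)) (Fin (N + 1)) ℂ := Matrix.of fun i j => tv (inc a b s t i (τ j)) x
    with hA
  have h1 : tv ((inc a b s t).submatrix id τ).det x = A.det := by
    rw [J.tv_eq, RingHom.map_det]
    rfl
  set w : Fin (N + 1) → ℂ := fun i => chi (c i) x with hw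
  have h2 := Matrix.det_updateRow_sum A 0 w
  set R : Fin (N + 1) → ℂ := ∑ i, w i • A i with hR
  have hRj : ∀ j, R j = chi (c (a (τ j)) + iv (s (τ j))) x - chi (c (b (τ j)) + iv (t (τ j))) x := by
    intro j
    rw [hR, Finset.sum_apply, ← col_sum]
    rfl
  have hRs : ∀ j : Fin N, R j.succ = 0 := by
    intro j
    rw [hRj, hτs]
    rcases hE j.succ (Fin.succ_ne_zero j) with ⟨h3, -, h4⟩ | ⟨h3, -, h4⟩
    · rw [h3, h4, sub_self]
    · rw [h3, h4, sub_self]
  have h5 : (A.updateRow 0 R).det = R 0 * (A.submatrix Fin.succ Fin.succ).det := by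
    rw [Matrix.det_succ_row_zero, Fin.sum_univ_succ, Finset.sum_eq_zero, add_zero]
    · rw [Matrix.updateRow_self]
      have h6 : (A.updateRow 0 R).submatrix Fin.succ (Fin.succAbove 0) =
          A.submatrix Fin.succ Fin.succ := by
        ext i j
        rw [Matrix.submatrix_apply, Matrix.submatrix_apply,
          Matrix.updateRow_ne (Fin.succ_ne_zero i)]
        rfl
      rw [h6]
      simp
    · intro j _
      rw [Matrix.updateRow_self, hRs]
      ring
  have h6 : ‖(A.submatrix Fin.succ Fin.succ).det‖ = 1 := by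
    rw [Matrix.det_of_isUpperTriangular, norm_prod]
    · refine Finset.prod_eq_one fun j _ => ?_
      change ‖tv (inc a b s t j.succ (τ j.succ)) x‖ = 1
      rw [hτs, tv_inc]
      rcases hE j.succ (Fin.succ_ne_zero j) with ⟨h3, h4, -⟩ | ⟨h3, h4, -⟩
      · rw [if_pos h3.symm, if_neg h4.ne', sub_zero, norm_chi]
      · rw [if_neg h4.ne', if_pos h3.symm, zero_sub, norm_neg, norm_chi]
    · intro i j hij
      have hij' : j.succ < i.succ := Fin.succ_lt_succ_iff.2 hij
      change tv (inc a b s t i.succ (τ j.succ)) x = 0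
      rw [hτs, tv_inc]
      rcases hE j.succ (Fin.succ_ne_zero j) with ⟨h3, h4, -⟩ | ⟨h3, h4, -⟩
      · rw [if_neg (by rw [h3]; exact hij'.ne'), if_neg (h4.trans hij').ne', sub_zero]
      · rw [if_neg (h4.trans hij').ne', if_neg (by rw [h3]; exact hij'.ne'), sub_zero]
  rw [h1]
  have h7 : ‖A.det‖ = ‖(A.updateRow 0 R).det‖ := by
    rw [h2, smul_eq_mul, norm_mul, norm_chi, one_mul]
  rw [h7, h5, norm_mul, h6, mul_one, hRj, hτ0]

end

end Pool.Agent.V5helper58.GD
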